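import Pool.Agent.Helper669.Forcing

/-!
# MP_c87228_lc

There is a `σ`-ideal `I` on a countable set `X` such that `P(X)/I` forces that the generic
ultrafilter is Tukey-top.
-/

set_option autoImplicit false

namespace Pool.Agent.Results.MP_c87228_lc.TukeyTopGeneric

open Pool.Agent.Helper669.Forcing

/-! ### Ideals and their quotient forcings -/

/-- `I` is a proper ideal on `X` that contains the finite sets. -/
structure IsIdeal {X : Type} (I : Set (Set X)) : Prop where
  finite_mem : ∀ A : Set X, A.Finite → A ∈ I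
  subset_mem : ∀ A B : Set X, A ⊆ B → B ∈ I → A ∈ I
  union_mem : ∀ A B : Set X, A ∈ I → B ∈ I → A ∪ B ∈ I
  univ_notMem : (Set.univ : Set X) ∉ I

/-- `I` is a `σ`-ideal in the sense of the problem: every decreasing sequence of sets outside `I`
has a lower bound outside `I` modulo `I`. -/
def IsSigma {X : Type} (I : Set (Set X)) : Prop :=
  ∀ A : ℕ → Set X, (∀ n, A (n + 1) ⊆ A n) → (∀ n, A n ∉ I) →
    ∃ B : Set X, B ∉ I ∧ ∀ n, B \ A n ∈ I

/-- The quotient `P(X)/I` is atomless: every set outside `I` contains two disjoint sets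
outside `I`. -/
def IsAtomless {X : Type} (I : Set (Set X)) : Prop :=
  ∀ A : Set X, A ∉ I → ∃ B C : Set X, B ⊆ A ∧ C ⊆ A ∧ Disjoint B C ∧ B ∉ I ∧ C ∉ I

/-- The conditions of the forcing `P(X)/I`: the sets outside the ideal `I`. -/
def Pos {X : Type} (I : Set (Set X)) (_ : IsIdeal I) : Type := {A : Set X // A ∉ I}

/-- `A` is stronger than `B` if `A \ B` is in the ideal. -/
instance {X : Type} (I : Set (Set X)) (hI : IsIdeal I) : Preorder (Pos I hI) where
  le A B := A.1 \ B.1 ∈ I
  le_refl A := hI.finite_mem _ (by rw [Set.sdiff_self]; exact Set.finite_empty)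
  le_trans A B C h1 h2 := by
    refine hI.subset_mem _ _ ?_ (hI.union_mem _ _ h1 h2)
    intro x hx
    by_cases hB : x ∈ B.1
    · exact Or.inr ⟨hB, hx.2⟩
    · exact Or.inl ⟨hx.1, hB⟩

/-! ### Statements about the extension

A statement of the forcing language is represented by the set of conditions that force it. A name
for a subset of a ground model set `S` is a map from `S` to sets of conditions, and `meets (N s)`
is the statement that `s` belongs to the set named by `N`. -/

section Names

variable {P : Type} [Preorder P]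

/-- In the extension, every subset of `ω` belongs to the ground model. -/
def NoNewSubsets (P : Type) [Preorder P] : Set P :=
  fall fun N : ℕ → Set P => fex fun a : Set ℕ =>
    fall fun n => fand (fimp (meets (N n)) (fground (n ∈ a))) (fimp (fground (n ∈ a)) (meets (N n)))

/-- In the extension, the set of subsets of `S` that is named by `W` is an ultrafilter on `S` (all
subsets of `S` under consideration are in the ground model). -/
def IsUltra {S : Type} (W : Set S → Set P) : Set P :=
  fand (meets (W Set.univ))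
    (fand (fnot (meets (W ∅)))
      (fand (fall fun a : Set S => fall fun b : Set S => fimp (fand (meets (W a)) (fground (a ⊆ b)))
          (meets (W b)))
        (fand (fall fun a : Set S => fall fun b : Set S => fimp (fand (meets (W a)) (meets (W b)))
            (meets (W (a ∩ b))))
          (fall fun a : Set S => fimp (fnot (meets (W a))) (meets (W aᶜ))))))

/-- In the extension, the relation named by `f` is a function from the set (of subsets of `S`)
named by `G` to the set (of subsets of `T`) named by `W`. -/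
def IsMap {S T : Type} (G : Set S → Set P) (W : Set T → Set P) (f : Set S → Set T → Set P) :
    Set P :=
  fand (fall fun A : Set S => fimp (meets (G A)) (fex fun v : Set T => meets (f A v)))
    (fand (fall fun A : Set S => fall fun v : Set T => fimp (meets (f A v))
        (fand (meets (G A)) (meets (W v))))
      (fall fun A : Set S => fall fun v : Set T => fall fun v' : Set T =>
        fimp (fand (meets (f A v)) (meets (f A v'))) (fground (v = v'))))

/-- In the extension, the set named by `Y` is a cofinal subset of the directed set `(G, ⊇)`. -/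
def IsCofinal {S : Type} (G : Set S → Set P) (Y : Set S → Set P) : Set P :=
  fand (fall fun A : Set S => fimp (meets (Y A)) (meets (G A)))
    (fall fun A : Set S => fimp (meets (G A))
      (fex fun B : Set S => fand (meets (Y B)) (fground (B ⊆ A))))

/-- A name for the image of the set named by `Y` under the function named by `f`. -/
def image {S T : Type} (f : Set S → Set T → Set P) (Y : Set S → Set P) : Set T → Set P :=
  fun v => fex fun A : Set S => fand (meets (Y A)) (meets (f A v))

/-- In the extension, `(W, ⊇) ≤_T (G, ⊇)`: some map from `G` to `W` sends every cofinal subset of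
`G` to a cofinal subset of `W`. -/
def TukeyLe {S T : Type} (W : Set T → Set P) (G : Set S → Set P) : Set P :=
  fex fun f : Set S → Set T → Set P => fand (IsMap G W f)
    (fall fun Y : Set S → Set P => fimp (IsCofinal G Y) (IsCofinal W (image f Y)))

/-- In the extension, the ultrafilter named by `G` is Tukey-top: it is Tukey above every
ultrafilter on `ω`. -/
def TukeyTop {S : Type} (G : Set S → Set P) : Set P :=
  fall fun W : Set ℕ → Set P => fimp (IsUltra W) (TukeyLe W G)

end Names

/-- The canonical name for the generic ultrafilter of `P(X)/I`: to a set `A` of the ground model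
are attached all the conditions below `A`. -/
def gen {X : Type} (I : Set (Set X)) (hI : IsIdeal I) : Set X → Set (Pos I hI) :=
  fun A => {p | p.1 \ A ∈ I}

/-! ### The ultrafilter of Isbell -/

/-- The underlying countable set. -/
abbrev E : Type := Finset ℕ × Finset (Finset ℕ)

open Classical in
/-- The independent family. -/
def ind (r : Set ℕ) : Set E := {e | e.1.filter (· ∈ r) ∈ e.2}

open Classical in
theorem ind_independent (F G : Finset (Set ℕ)) (h : Disjoint F G) :
    ∃ e : E, (∀ r ∈ F, e ∈ ind r) ∧ ∀ r ∈ G, e ∉ ind r := by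
  -- a finite set separating the members
  have hsep : ∀ p : Set ℕ × Set ℕ, ∃ n : ℕ, p.1 ≠ p.2 → ¬ (n ∈ p.1 ↔ n ∈ p.2) := by
    intro p
    by_cases hp : p.1 = p.2
    · exact ⟨0, fun h => absurd hp h⟩
    · have : ∃ n, ¬ (n ∈ p.1 ↔ n ∈ p.2) := by
        by_contra hcon
        push Not at hcon
        exact hp (Set.ext hcon)
      obtain ⟨n, hn⟩ := this
      exact ⟨n, fun _ => hn⟩
  choose w hw using hsep
  let s : Finset ℕ := (F ×ˢ G).image w
  refine ⟨⟨s, F.image fun r => s.filter (· ∈ r)⟩, ?_, ?_⟩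
  · intro r hr
    exact Finset.mem_image.2 ⟨r, hr, rfl⟩
  · intro r hr hmem
    obtain ⟨r', hr', heq⟩ := Finset.mem_image.1 hmem
    have hne : r' ≠ r := fun h' => Finset.disjoint_left.1 h hr' (h' ▸ hr)
    have h1 := hw (r', r) hne
    apply h1
    have h2 : w (r', r) ∈ s := Finset.mem_image_of_mem _ (Finset.mem_product.2 ⟨hr', hr⟩)
    have h3 : w (r', r) ∈ s.filter (· ∈ r') ↔ w (r', r) ∈ s.filter (· ∈ r) := by
      exact Eq.to_iff (congrArg (fun z : Finset ℕ => w (r', r) ∈ z) heq)
    simpa [h2] using h3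

open Classical in
/-- There is an ultrafilter containing the independent family, but no intersection of infinitely
many of its members. -/
theorem exists_isbell : ∃ U : Ultrafilter E, (∀ r, ind r ∈ U) ∧
    ∀ R : Set (Set ℕ), R.Infinite → (⋂ r ∈ R, ind r) ∉ U := by
  let B : Set (Set E) := {s | (∃ r, s = ind r) ∨ ∃ R : Set (Set ℕ), R.Infinite ∧
    s = (⋂ r ∈ R, ind r)ᶜ}
  have hB : (Filter.generate B).NeBot := by
    rw [Filter.generate_neBot_iff]
    intro t htB htfin
    -- finitely many members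
    have h1 : ∃ F : Finset (Set ℕ), ∀ s ∈ t, ∀ r, s = ind r → (∃ r' ∈ F, s = ind r') := by
      have : ∀ s : Set E, ∃ r : Set ℕ, (∃ r', s = ind r') → s = ind r := by
        intro s
        by_cases h : ∃ r', s = ind r'
        · obtain ⟨r', hr'⟩ := h
          exact ⟨r', fun _ => hr'⟩
        · exact ⟨∅, fun h' => absurd h' h⟩
      choose g hg using this
      refine ⟨htfin.toFinset.image g, fun s hs r hr => ⟨g s, ?_, hg s ⟨r, hr⟩⟩⟩
      exact Finset.mem_image_of_mem _ (htfin.mem_toFinset.2 hs)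
    obtain ⟨F, hF⟩ := h1
    have h2 : ∀ s : Set E, ∃ r : Set ℕ, r ∉ F ∧ ((∃ R : Set (Set ℕ), R.Infinite ∧
        s = (⋂ r ∈ R, ind r)ᶜ) → (ind r)ᶜ ⊆ s) := by
      intro s
      by_cases h : ∃ R : Set (Set ℕ), R.Infinite ∧ s = (⋂ r ∈ R, ind r)ᶜ
      · obtain ⟨R, hR, rfl⟩ := h
        obtain ⟨r, hr, hrF⟩ := hR.exists_notMem_finset F
        refine ⟨r, hrF, fun _ => ?_⟩
        rw [Set.compl_subset_compl]
        exact Set.biInter_subset_of_mem hr
      · obtain ⟨r, -, hrF⟩ := (Set.infinite_univ (α := Set ℕ)).exists_notMem_finset F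
        exact ⟨r, hrF, fun h' => absurd h' h⟩
    choose g hg1 hg2 using h2
    obtain ⟨e, he1, he2⟩ := ind_independent F (htfin.toFinset.image g) (by
      rw [Finset.disjoint_left]
      intro r hr hr'
      obtain ⟨s, -, rfl⟩ := Finset.mem_image.1 hr'
      exact hg1 s hr)
    refine ⟨e, Set.mem_sInter.2 fun s hs => ?_⟩
    rcases htB hs with ⟨r, hr⟩ | h
    · obtain ⟨r', hr', rfl⟩ := hF s hs r hr
      exact he1 r' hr'
    · exact hg2 s h (he2 _ (Finset.mem_image_of_mem _ (htfin.mem_toFinset.2 hs)))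
  let U : Ultrafilter E := @Ultrafilter.of E (Filter.generate B) hB
  have hU : ∀ s ∈ B, s ∈ U := fun s hs =>
    @Ultrafilter.of_le E (Filter.generate B) hB _ (Filter.mem_generate_of_mem hs)
  refine ⟨U, fun r => hU _ (Or.inl ⟨r, rfl⟩), fun R hR h => ?_⟩
  exact Ultrafilter.compl_notMem_iff.2 h (hU _ (Or.inr ⟨R, hR, rfl⟩))

/-! ### The ideal -/

/-- The section of `A` at `e`. -/
def sec (A : Set (E × ℕ)) (e : E) : Set ℕ := {k | (e, k) ∈ A}

/-- The ideal of all sets with almost all sections finite. -/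
def idl (U : Ultrafilter E) : Set (Set (E × ℕ)) := {A | {e | (sec A e).Finite} ∈ U}

theorem notMem_idl {U : Ultrafilter E} {A : Set (E × ℕ)} :
    A ∉ idl U ↔ {e | (sec A e).Infinite} ∈ U := by
  change ¬ ({e | (sec A e).Finite} ∈ U) ↔ _
  rw [← Ultrafilter.compl_mem_iff_notMem]
  rfl

theorem isIdeal_idl (U : Ultrafilter E) : IsIdeal (idl U) where
  finite_mem A hA := by
    refine Filter.mem_of_superset Filter.univ_mem fun e _ => ?_
    exact hA.preimage (fun k _ k' _ h => (Prod.ext_iff.1 h).2)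
  subset_mem A B hAB hB := by
    refine Filter.mem_of_superset hB fun e he => ?_
    exact Set.Finite.subset he fun k hk => hAB hk
  union_mem A B hA hB := by
    refine Filter.mem_of_superset (Filter.inter_mem hA hB) fun e he => ?_
    exact (he.1.union he.2).subset fun k hk => hk
  univ_notMem := by
    rw [notMem_idl]
    refine Filter.mem_of_superset Filter.univ_mem fun e _ => ?_
    exact Set.infinite_univ

/-- A decreasing sequence of infinite sets has an infinite pseudointersection. -/
theorem exists_pseudo (B : ℕ → Set ℕ) (hB : ∀ n, B (n + 1) ⊆ B n) (hinf : ∀ n, (B n).Infinite) :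
    ∃ C : Set ℕ, C.Infinite ∧ ∀ n, (C \ B n).Finite := by
  have h : ∀ n m : ℕ, ∃ k ∈ B n, m < k := fun n m => (hinf n).exists_gt m
  choose f hf1 hf2 using h
  let g : ℕ → ℕ := fun n => Nat.rec (f 0 0) (fun k a => f (k + 1) a) n
  have hg1 : ∀ n, g n ∈ B n := by
    intro n
    cases n with
    | zero => exact hf1 _ _
    | succ n => exact hf1 _ _
  have hg2 : StrictMono g := strictMono_nat_of_lt_succ fun n => hf2 _ _
  have hmono : ∀ m n, m ≤ n → B n ⊆ B m := fun m n h => antitone_nat_of_succ_le hB h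
  refine ⟨Set.range g, Set.infinite_range_of_injective hg2.injective, fun n => ?_⟩
  refine ((Finset.range n).finite_toSet.image g).subset ?_
  rintro _ ⟨⟨k, rfl⟩, hk⟩
  refine ⟨k, ?_, rfl⟩
  rw [Finset.mem_coe, Finset.mem_range]
  by_contra hcon
  exact hk (hmono n k (not_lt.1 hcon) (hg1 k))

theorem isSigma_idl (U : Ultrafilter E) : IsSigma (idl U) := by
  classical
  intro A hA hpos
  have h1 : ∀ e : E, ∃ C : Set ℕ, ((sec (A 0) e).Infinite → C.Infinite) ∧
      ∀ n, (sec (A n) e).Infinite → (C \ sec (A n) e).Finite := by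
    intro e
    have hsub : ∀ n, sec (A (n + 1)) e ⊆ sec (A n) e := fun n k hk => hA n hk
    have hmono : ∀ m n, m ≤ n → sec (A n) e ⊆ sec (A m) e := fun m n h =>
      antitone_nat_of_succ_le (f := fun n => sec (A n) e) hsub h
    by_cases hall : ∀ n, (sec (A n) e).Infinite
    · obtain ⟨C, hC1, hC2⟩ := exists_pseudo _ hsub hall
      exact ⟨C, fun _ => hC1, fun n _ => hC2 n⟩
    · push Not at hall
      by_cases h0 : (sec (A 0) e).Infinite
      · let N := Nat.find hall
        have hN : (sec (A N) e).Finite := Nat.find_spec hall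
        have hN0 : N ≠ 0 := fun h => h0 (h ▸ hN)
        obtain ⟨M, hM⟩ := Nat.exists_eq_succ_of_ne_zero hN0
        have hMinf : (sec (A M) e).Infinite := by
          by_contra hcon
          exact Nat.find_min hall (show M < N by omega) (Set.not_infinite.1 hcon)
        refine ⟨sec (A M) e, fun _ => hMinf, fun n hn => ?_⟩
        have hnM : n ≤ M := by
          by_contra hcon
          exact hn (hN.subset (hmono N n (by omega)))
        have : sec (A M) e \ sec (A n) e = ∅ := Set.sdiff_eq_empty.2 (hmono n M hnM)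
        rw [this]
        exact Set.finite_empty
      · exact ⟨∅, fun h => absurd h h0, fun n _ => by simp⟩
  choose C hC1 hC2 using h1
  have hsec : ∀ e, sec {x : E × ℕ | x.2 ∈ C x.1} e = C e := fun e => rfl
  refine ⟨{x | x.2 ∈ C x.1}, ?_, fun n => ?_⟩
  · rw [notMem_idl]
    exact Filter.mem_of_superset (notMem_idl.1 (hpos 0)) fun e he => hC1 e he
  · exact Filter.mem_of_superset (notMem_idl.1 (hpos n)) fun e he => hC2 e n he

theorem exists_split (B : Set ℕ) (hB : B.Infinite) :
    ∃ C D : Set ℕ, C ⊆ B ∧ D ⊆ B ∧ Disjoint C D ∧ C.Infinite ∧ D.Infinite := by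
  let f : ℕ → ℕ := fun n => (hB.natEmbedding _ n : ℕ)
  have hf : Function.Injective f := fun m n h => (hB.natEmbedding _).injective (Subtype.ext h)
  have hfB : ∀ n, f n ∈ B := fun n => (hB.natEmbedding _ n).2
  refine ⟨Set.range fun n => f (2 * n), Set.range fun n => f (2 * n + 1), ?_, ?_, ?_, ?_, ?_⟩
  · rintro _ ⟨n, rfl⟩
    exact hfB _
  · rintro _ ⟨n, rfl⟩
    exact hfB _
  · rw [Set.disjoint_left]
    rintro _ ⟨m, rfl⟩ ⟨n, hn⟩
    have := hf hn
    omega
  · exact Set.infinite_range_of_injective fun m n h => by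
      have := hf h
      omega
  · exact Set.infinite_range_of_injective fun m n h => by
      have := hf h
      omega

theorem isAtomless_idl (U : Ultrafilter E) : IsAtomless (idl U) := by
  intro A hA
  have h1 : ∀ e : E, ∃ C D : Set ℕ, C ⊆ sec A e ∧ D ⊆ sec A e ∧ Disjoint C D ∧
      ((sec A e).Infinite → C.Infinite ∧ D.Infinite) := by
    intro e
    by_cases h : (sec A e).Infinite
    · obtain ⟨C, D, h1, h2, h3, h4, h5⟩ := exists_split _ h
      exact ⟨C, D, h1, h2, h3, fun _ => ⟨h4, h5⟩⟩
    · exact ⟨∅, ∅, Set.empty_subset _, Set.empty_subset _, Set.disjoint_empty _,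
        fun h' => absurd h' h⟩
  choose C D h1 h2 h3 h4 using h1
  refine ⟨{x | x.2 ∈ C x.1}, {x | x.2 ∈ D x.1}, fun x hx => h1 x.1 hx, fun x hx => h2 x.1 hx,
    ?_, ?_, ?_⟩
  · rw [Set.disjoint_left]
    intro x hx hx'
    exact Set.disjoint_left.1 (h3 x.1) hx hx'
  · rw [notMem_idl]
    exact Filter.mem_of_superset (notMem_idl.1 hA) fun e he => (h4 e he).1
  · rw [notMem_idl]
    exact Filter.mem_of_superset (notMem_idl.1 hA) fun e he => (h4 e he).2

/-! ### Forcing lemmas -/

section Lemmas

variable {P : Type} [Preorder P]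

/-- Regular sentences. -/
def Reg (φ : Set P) : Prop := ∀ p, (∀ q ≤ p, ∃ r ≤ q, r ∈ φ) → p ∈ φ

theorem reg_meets (N : Set P) : Reg (meets N) := by
  intro p h q hq
  obtain ⟨r, hr, hr'⟩ := h q hq
  obtain ⟨s, hs, t, ht, hst⟩ := hr' r le_rfl
  exact ⟨s, hs.trans hr, t, ht, hst⟩

theorem mp {φ ψ : Set P} {p : P} (hψ : Reg ψ) (hφ : Down φ) (h : p ∈ fimp φ ψ) (h' : p ∈ φ) :
    p ∈ ψ := hψ p fun q hq => mem_fimp.1 h q hq (hφ _ h' _ hq)

theorem fimp_intro {φ ψ : Set P} {p : P} (h : ∀ q ≤ p, q ∈ φ → ∃ r ≤ q, r ∈ ψ) :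
    p ∈ fimp φ ψ := mem_fimp.2 h

theorem decide_one (φ : Set P) (p : P) : ∃ q ≤ p, q ∈ φ ∨ q ∈ fnot φ := by
  by_cases h : ∃ q ≤ p, q ∈ φ
  · obtain ⟨q, hq, hq'⟩ := h
    exact ⟨q, hq, Or.inl hq'⟩
  · push Not at h
    exact ⟨p, le_rfl, Or.inr h⟩

theorem decide_finite {ι : Type} (s : Set ι) (hs : s.Finite) (φ : ι → Set P)
    (hφ : ∀ i, Down (φ i)) (p : P) : ∃ q ≤ p, ∀ i ∈ s, q ∈ φ i ∨ q ∈ fnot (φ i) := by
  induction s, hs using Set.Finite.induction_on with
  | empty => exact ⟨p, le_rfl, fun i hi => hi.elim⟩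
  | insert _ _ ih =>
    obtain ⟨q, hq, hq'⟩ := ih
    obtain ⟨r, hr, hr'⟩ := decide_one (φ _) q
    refine ⟨r, hr.trans hq, ?_⟩
    rintro i (rfl | hi)
    · exact hr'
    · rcases hq' i hi with h | h
      · exact Or.inl (hφ i _ h _ hr)
      · exact Or.inr (down_fnot _ _ h _ hr)

/-- An ultrafilter of the extension is closed under finite intersections. -/
theorem inter_mem {W : Set ℕ → Set P} {q : P} (hq : q ∈ IsUltra W) (s : Set (Set ℕ))
    (hs : s.Finite) (h : ∀ w ∈ s, q ∈ meets (W w)) : q ∈ meets (W (⋂₀ s)) := by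
  induction s, hs using Set.Finite.induction_on with
  | empty =>
    rw [Set.sInter_empty]
    exact hq.1
  | insert _ _ ih =>
    rw [Set.sInter_insert]
    have h1 := ih fun w hw => h w (Or.inr hw)
    have h2 := h _ (Or.inl rfl)
    exact mp (reg_meets _) (down_fand (down_meets _) (down_meets _)) (hq.2.2.2.1 _ _) ⟨h2, h1⟩

theorem down_IsUltra {S : Type} (W : Set S → Set P) : Down (IsUltra W) :=
  down_fand (down_meets _) (down_fand (down_fnot _) (down_fand (down_fall fun _ => down_fall
    fun _ => down_fimp _ _) (down_fand (down_fall fun _ => down_fall fun _ => down_fimp _ _)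
      (down_fall fun _ => down_fimp _ _))))

/-- A forcing notion in which descending sequences have lower bounds adds no subsets of `ω`. -/
theorem noNewSubsets (hcl : ∀ f : ℕ → P, (∀ n, f (n + 1) ≤ f n) → ∃ q, ∀ n, q ≤ f n) (p : P) :
    p ∈ NoNewSubsets P := by
  intro N
  rw [mem_fex]
  intro q _
  choose g hg1 hg2 using fun (n : ℕ) (r : P) => decide_one (meets (N n)) r
  let f : ℕ → P := fun n => Nat.rec q (fun k a => g k a) n
  have hf : ∀ n, f (n + 1) = g n (f n) := fun n => rfl
  obtain ⟨r, hr⟩ := hcl f fun n => hg1 _ _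
  refine ⟨r, hr 0, {n | r ∈ meets (N n)}, fun n => ?_⟩
  have hdec : r ∈ meets (N n) ∨ r ∈ fnot (meets (N n)) := by
    rcases hg2 n (f n) with h | h
    · exact Or.inl (down_meets _ _ h _ (hr (n + 1)))
    · exact Or.inr (down_fnot _ _ h _ (hr (n + 1)))
  constructor
  · refine fimp_intro fun s hs hs' => ⟨s, le_rfl, ?_⟩
    rcases hdec with h | h
    · exact h
    · exact absurd hs' (h s hs)
  · refine fimp_intro fun s hs hs' => ⟨s, le_rfl, ?_⟩
    exact down_meets _ _ hs' _ hs

end Lemmas

/-! ### The quotient forcing -/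

section Quotient

variable {U : Ultrafilter E}

theorem closed_idl (f : ℕ → Pos (idl U) (isIdeal_idl U)) (hf : ∀ n, f (n + 1) ≤ f n) :
    ∃ q, ∀ n, q ≤ f n := by
  have hI := isIdeal_idl U
  have hle : ∀ m n, m ≤ n → f n ≤ f m := fun m n h => antitone_nat_of_succ_le hf h
  let A : ℕ → Set (E × ℕ) := fun n => ⋂ k ∈ Finset.range (n + 1), (f k).1
  have hA : ∀ n, A (n + 1) ⊆ A n := by
    intro n x hx
    simp only [A, Set.mem_iInter, Finset.mem_range] at hx ⊢
    intro k hk
    exact hx k (by omega)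
  have hdiff : ∀ n, (f n).1 \ A n ∈ idl U := by
    intro n
    have h1 : ∀ s : Finset ℕ, (∀ k ∈ s, k ≤ n) → (f n).1 \ (⋂ k ∈ s, (f k).1) ∈ idl U := by
      intro s
      induction s using Finset.induction_on with
      | empty =>
        intro _
        refine hI.subset_mem _ ∅ ?_ (hI.finite_mem _ Set.finite_empty)
        intro x hx
        simp at hx
      | insert a s _ ih =>
        intro hs
        refine hI.subset_mem _ _ ?_ (hI.union_mem _ _ (hle a n (hs a (Finset.mem_insert_self _ _)))
          (ih fun k hk => hs k (Finset.mem_insert_of_mem hk)))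
        intro x hx
        by_cases hxa : x ∈ (f a).1
        · refine Or.inr ⟨hx.1, fun h => hx.2 ?_⟩
          simp only [Set.mem_iInter, Finset.mem_insert] at h ⊢
          rintro k (rfl | hk)
          · exact hxa
          · exact h k hk
        · exact Or.inl ⟨hx.1, hxa⟩
    exact h1 _ fun k hk => by
      have := Finset.mem_range.1 hk
      omega
  have hpos : ∀ n, A n ∉ idl U := by
    intro n h
    refine (f n).2 (hI.subset_mem _ _ ?_ (hI.union_mem _ _ h (hdiff n)))
    intro x hx
    by_cases hxA : x ∈ A n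
    · exact Or.inl hxA
    · exact Or.inr ⟨hx, hxA⟩
  obtain ⟨B, hB, hB'⟩ := isSigma_idl U A hA hpos
  refine ⟨⟨B, hB⟩, fun n => ?_⟩
  refine hI.subset_mem _ _ ?_ (hB' n)
  intro x hx
  refine ⟨hx.1, fun h => hx.2 ?_⟩
  simp only [A, Set.mem_iInter, Finset.mem_range] at h
  exact h n (by omega)

/-- The sets of the independent family that contain the projection of `A`. -/
def cov (A : Set (E × ℕ)) : Set (Set ℕ) := {w | ∀ x ∈ A, x.1 ∈ ind w}

theorem cov_finite (hU : ∀ R : Set (Set ℕ), R.Infinite → (⋂ r ∈ R, ind r) ∉ U)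
    {A : Set (E × ℕ)} (hA : A ∉ idl U) : (cov A).Finite := by
  by_contra hcon
  refine hU _ hcon (Filter.mem_of_superset (notMem_idl.1 hA) fun e he => ?_)
  obtain ⟨k, hk⟩ := Set.Infinite.nonempty he
  exact Set.mem_biInter fun w hw => hw _ hk

theorem cylinder_gen (hU : ∀ r, ind r ∈ U) (w : Set ℕ) (p : Pos (idl U) (isIdeal_idl U)) :
    p.1 \ {x | x.1 ∈ ind w} ∈ idl U := by
  refine Filter.mem_of_superset (hU w) fun e he => ?_
  have : sec (p.1 \ {x | x.1 ∈ ind w}) e = ∅ := by
    ext k
    simp only [sec, Set.mem_sdiff, Set.mem_ofPred_eq, Set.mem_empty_iff_false, iff_false, not_and,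
      not_not]
    exact fun _ => he
  change (sec _ e).Finite
  rw [this]
  exact Set.finite_empty

theorem tukeyTop (hU1 : ∀ r, ind r ∈ U)
    (hU2 : ∀ R : Set (Set ℕ), R.Infinite → (⋂ r ∈ R, ind r) ∉ U)
    (p : Pos (idl U) (isIdeal_idl U)) : p ∈ TukeyTop (gen (idl U) (isIdeal_idl U)) := by
  have hI := isIdeal_idl U
  intro W
  refine fimp_intro fun q _ hW => ⟨q, le_rfl, ?_⟩
  let G := gen (idl U) (isIdeal_idl U)
  have hGdown : ∀ A, Down (G A) := fun A r hr s hs => by
    refine hI.subset_mem _ _ ?_ (hI.union_mem _ _ hs hr)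
    intro x hx
    by_cases h : x ∈ r.1
    · exact Or.inr ⟨h, hx.2⟩
    · exact Or.inl ⟨hx.1, h⟩
  let dec : Set (E × ℕ) → Pos (idl U) (isIdeal_idl U) → Prop := fun A r =>
    ∀ w ∈ cov A, r ∈ meets (W w) ∨ r ∈ fnot (meets (W w))
  let val : Set (E × ℕ) → Pos (idl U) (isIdeal_idl U) → Set ℕ := fun A r =>
    ⋂₀ {w | w ∈ cov A ∧ r ∈ meets (W w)}
  let f : Set (E × ℕ) → Set ℕ → Set (Pos (idl U) (isIdeal_idl U)) := fun A v =>
    {r | r ∈ G A ∧ dec A r ∧ v = val A r}
  have hval : ∀ A r s, s ≤ r → dec A r → val A s = val A r := by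
    intro A r s hs hr
    have : {w | w ∈ cov A ∧ s ∈ meets (W w)} = {w | w ∈ cov A ∧ r ∈ meets (W w)} := by
      ext w
      constructor
      · rintro ⟨h1, h2⟩
        rcases hr w h1 with h | h
        · exact ⟨h1, h⟩
        · exact absurd h2 (h s hs)
      · rintro ⟨h1, h2⟩
        exact ⟨h1, down_meets _ _ h2 _ hs⟩
    simp only [val, this]
  have hdec : ∀ A r s, s ≤ r → dec A r → dec A s := by
    intro A r s hs hr w hw
    rcases hr w hw with h | h
    · exact Or.inl (down_meets _ _ h _ hs)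
    · exact Or.inr (down_fnot _ _ h _ hs)
  have hfdown : ∀ A v, Down (f A v) := by
    rintro A v r ⟨h1, h2, h3⟩ s hs
    exact ⟨hGdown A _ h1 _ hs, hdec A r s hs h2, by rw [hval A r s hs h2]; exact h3⟩
  -- below every condition in `G A` there is one deciding the value
  have htotal : ∀ A r, r ∈ meets (G A) → ∃ s ≤ r, s ∈ f A (val A s) := by
    intro A r hr
    obtain ⟨s, hs, hs'⟩ := exists_of_meets (hGdown A) hr
    have hA : A ∉ idl U := by
      intro h
      refine s.2 (hI.subset_mem _ _ ?_ (hI.union_mem _ _ h hs'))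
      intro x hx
      by_cases hxA : x ∈ A
      · exact Or.inl hxA
      · exact Or.inr ⟨hx, hxA⟩
    obtain ⟨t, ht, ht'⟩ := decide_finite (cov A) (cov_finite hU2 hA) (fun w => meets (W w))
      (fun w => down_meets _) s
    exact ⟨t, ht.trans hs, hGdown A _ hs' _ ht, ht', rfl⟩
  have hvalW : ∀ A v r, r ≤ q → r ∈ f A v → r ∈ meets (W v) := by
    rintro A v r hrq ⟨h1, h2, rfl⟩
    have hA : A ∉ idl U := by
      intro h
      refine r.2 (hI.subset_mem _ _ ?_ (hI.union_mem _ _ h h1))
      intro x hx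
      by_cases hxA : x ∈ A
      · exact Or.inl hxA
      · exact Or.inr ⟨hx, hxA⟩
    exact inter_mem (down_IsUltra _ _ hW _ hrq) _
      ((cov_finite hU2 hA).subset fun w hw => hw.1) fun w hw => hw.2
  refine mem_fex_of_mem f (down_fand (down_fand (down_fall fun _ => down_fimp _ _) (down_fand
    (down_fall fun _ => down_fall fun _ => down_fimp _ _) (down_fall fun _ => down_fall fun _ =>
      down_fall fun _ => down_fimp _ _))) (down_fall fun _ => down_fimp _ _)) ⟨⟨?_, ?_, ?_⟩, ?_⟩
  · intro A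
    refine fimp_intro fun r hr hrA => ?_
    obtain ⟨s, hs, hs'⟩ := htotal A r hrA
    exact ⟨s, hs, mem_fex_of_mem _ (down_meets _) (meets_of_mem hs')⟩
  · intro A v
    refine fimp_intro fun r hr hrA => ?_
    obtain ⟨s, hs, hs'⟩ := exists_of_meets (hfdown A v) hrA
    exact ⟨s, hs, meets_of_mem hs'.1, hvalW A v s (hs.trans hr) hs'⟩
  · intro A v v'
    refine fimp_intro fun r hr hrA => ?_
    obtain ⟨s, hs, hs'⟩ := exists_of_meets (hfdown A v) hrA.1
    obtain ⟨t, ht, ht'⟩ := exists_of_meets (hfdown A v') (down_meets _ _ hrA.2 _ hs)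
    refine ⟨t, ht.trans hs, ?_⟩
    have h1 := (hfdown A v _ hs' _ ht).2.2
    exact h1.trans ht'.2.2.symm
  · intro Y
    refine fimp_intro fun r hr hY => ⟨r, le_rfl, ?_, ?_⟩
    · intro v
      refine fimp_intro fun s hs hsv => ?_
      obtain ⟨t, ht, ht'⟩ := exists_of_meets (down_fex _) hsv
      obtain ⟨t', ht1, A, hA1, hA2⟩ := mem_fex.1 ht' t le_rfl
      obtain ⟨t'', ht2, ht3⟩ := exists_of_meets (hfdown A v) hA2
      have hle := ht2.trans (ht1.trans ht)
      exact ⟨t'', hle, hvalW A v t'' (hle.trans (hs.trans hr)) ht3⟩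
    · intro w
      refine fimp_intro fun s hs hsw => ?_
      have h1 : s ∈ meets (G {x | x.1 ∈ ind w}) := meets_of_mem (cylinder_gen hU1 w s)
      obtain ⟨t, ht, ht'⟩ := mem_fimp.1 (hY.2 {x | x.1 ∈ ind w}) s hs h1
      obtain ⟨t', ht1, B, hB1, hB2⟩ := mem_fex.1 ht' t le_rfl
      have hle : t' ≤ r := ht1.trans (ht.trans hs)
      have h2 : t' ∈ meets (G B) := mp (reg_meets _) (down_meets _)
        (down_fimp _ _ _ (hY.1 B) _ hle) hB1
      obtain ⟨t'', ht2, ht3⟩ := htotal B t' h2
      have hle' : t'' ≤ s := ht2.trans (ht1.trans ht)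
      refine ⟨t'', hle', ?_⟩
      refine mem_fex_of_mem (val B t'') (down_fand (down_meets _) (down_fground _)) ⟨?_, ?_⟩
      · refine meets_of_mem ?_
        exact mem_fex_of_mem B (down_fand (down_meets _) (down_meets _))
          ⟨down_meets _ _ hB1 _ ht2, meets_of_mem ht3⟩
      · change val B t'' ⊆ w
        refine Set.sInter_subset_of_mem ⟨fun x hx => hB2 hx, down_meets _ _ hsw _ hle'⟩

end Quotient

theorem gen_down {X : Type} {I : Set (Set X)} (hI : IsIdeal I) (A : Set X) :
    Down (gen I hI A) := fun r hr s hs => by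
  refine hI.subset_mem _ _ ?_ (hI.union_mem _ _ hs hr)
  intro x hx
  by_cases h : x ∈ r.1
  · exact Or.inr ⟨h, hx.2⟩
  · exact Or.inl ⟨hx.1, h⟩

/-- The generic filter is an ultrafilter. -/
theorem gen_ultra {X : Type} {I : Set (Set X)} (hI : IsIdeal I) (p : Pos I hI) :
    p ∈ IsUltra (gen I hI) := by
  refine ⟨?_, ?_, ?_, ?_, ?_⟩
  · refine meets_of_mem ?_
    change p.1 \ Set.univ ∈ I
    rw [Set.sdiff_univ]
    exact hI.finite_mem _ Set.finite_empty
  · intro q _ hq
    obtain ⟨r, _, hr⟩ := exists_of_meets (gen_down hI _) hq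
    refine r.2 ?_
    have h1 : r.1 \ ∅ ∈ I := hr
    rwa [Set.sdiff_empty] at h1
  · intro a b
    refine fimp_intro fun q _ hq => ?_
    obtain ⟨r, hr, hr'⟩ := exists_of_meets (gen_down hI _) hq.1
    exact ⟨r, hr, meets_of_mem (hI.subset_mem _ _ (Set.sdiff_subset_sdiff_right hq.2) hr')⟩
  · intro a b
    refine fimp_intro fun q _ hq => ?_
    obtain ⟨r, hr, hr'⟩ := exists_of_meets (gen_down hI _) hq.1
    obtain ⟨s, hs, hs'⟩ := exists_of_meets (gen_down hI _) (down_meets _ _ hq.2 _ hr)
    refine ⟨s, hs.trans hr, meets_of_mem ?_⟩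
    refine hI.subset_mem _ _ ?_ (hI.union_mem _ _ (gen_down hI _ _ hr' _ hs) hs')
    intro x hx
    by_cases hxa : x ∈ a
    · exact Or.inr ⟨hx.1, fun hxb => hx.2 ⟨hxa, hxb⟩⟩
    · exact Or.inl ⟨hx.1, hxa⟩
  · intro a
    refine fimp_intro fun q _ hq => ⟨q, le_rfl, meets_of_mem ?_⟩
    by_contra hcon
    have h1 : q.1 ∩ a ∉ I := fun h => hcon (hI.subset_mem _ _ (fun x hx => by
      refine ⟨hx.1, ?_⟩
      by_contra hxa
      exact hx.2 hxa) h)
    refine hq ⟨q.1 ∩ a, h1⟩ ?_ (meets_of_mem ?_)
    · change (q.1 ∩ a) \ q.1 ∈ I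
      refine hI.subset_mem _ ∅ ?_ (hI.finite_mem _ Set.finite_empty)
      intro x hx
      exact absurd hx.1.1 hx.2
    · change (q.1 ∩ a) \ a ∈ I
      refine hI.subset_mem _ ∅ ?_ (hI.finite_mem _ Set.finite_empty)
      intro x hx
      exact absurd hx.1.2 hx.2

/-- There are a countable set `X` and a `σ`-ideal `I` on `X` with atomless quotient such that
`P(X)/I` adds no new subsets of `ω` and every condition forces that the generic ultrafilter on
`X` is an ultrafilter and is Tukey-top in the extension. -/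
theorem result : ∃ (X : Type) (I : Set (Set X)) (hI : IsIdeal I), Countable X ∧ Infinite X ∧
    IsSigma I ∧ IsAtomless I ∧ ∀ p : Pos I hI, p ∈ NoNewSubsets (Pos I hI) ∧
      p ∈ IsUltra (gen I hI) ∧ p ∈ TukeyTop (gen I hI) := by
  obtain ⟨U, hU1, hU2⟩ := exists_isbell
  refine ⟨E × ℕ, idl U, isIdeal_idl U, inferInstance, inferInstance, isSigma_idl U,
    isAtomless_idl U, fun p => ⟨noNewSubsets closed_idl p, gen_ultra _ p,
      tukeyTop hU1 hU2 p⟩⟩

end Pool.Agent.Results.MP_c87228_lc.TukeyTopGeneric
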